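import Mathlib

/-!
# The cup-of-coffee sequence contains every even number and every prime
-/

namespace Pool.Agent.Results.MP_ab534e_nt.EvensAndPrimes

/-- `m` is an admissible value at step `n`: it is a positive integer, it is not among
`a 1, …, a (n-1)`, every prime dividing `a (n-1)` but not `a (n-2)` divides it, and no prime
dividing both `a (n-1)` and `a (n-2)` divides it. -/
def Admissible (a : ℕ → ℕ) (n m : ℕ) : Prop :=
  0 < m ∧ (∀ i, 1 ≤ i → i < n → a i ≠ m) ∧
  (∀ p, p.Prime → p ∣ a (n - 1) → ¬ p ∣ a (n - 2) → p ∣ m) ∧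
  (∀ p, p.Prime → p ∣ a (n - 1) → p ∣ a (n - 2) → ¬ p ∣ m)

/-- `a` is the cup-of-coffee sequence `a 1, a 2, …` (the value `a 0` is irrelevant). -/
def IsCoffee (a : ℕ → ℕ) : Prop :=
  a 1 = 1 ∧ a 2 = 2 ∧ ∀ n, 3 ≤ n → IsLeast {m | Admissible a n m} (a n)

/-- The positive integer `k` is a term of the sequence. -/
def Occurs (a : ℕ → ℕ) (k : ℕ) : Prop := ∃ n, 1 ≤ n ∧ a n = k

section
variable {a : ℕ → ℕ}

theorem pos (h : IsCoffee a) (n : ℕ) (hn : 1 ≤ n) : 0 < a n := by
  obtain ⟨h1, h2, h3⟩ := h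
  rcases Nat.lt_or_ge n 3 with h' | h'
  · interval_cases n
    · omega
    · omega
  · exact (h3 n h').1.1

theorem ne_of_lt (h : IsCoffee a) {i j : ℕ} (hi : 1 ≤ i) (hij : i < j) : a i ≠ a j := by
  obtain ⟨h1, h2, h3⟩ := h
  rcases Nat.lt_or_ge j 3 with h' | h'
  · have : i = 1 := by omega
    have : j = 2 := by omega
    subst_vars
    omega
  · exact (h3 j h').1.2.1 i hi hij

theorem late (h : IsCoffee a) (k : ℕ) : ∃ N, 1 ≤ N ∧ ∀ n, N ≤ n → k < a n := by
  have hinj : Function.Injective (fun n => a (n + 1)) := by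
    intro i j hij
    simp only at hij
    rcases lt_trichotomy i j with h' | h' | h'
    · exact absurd hij (ne_of_lt h (by omega) (by omega))
    · exact h'
    · exact absurd hij.symm (ne_of_lt h (by omega) (by omega))
  have ht := hinj.nat_tendsto_atTop
  obtain ⟨N, hN⟩ := (Filter.tendsto_atTop_atTop.1 ht) (k + 1)
  refine ⟨N + 1, by omega, fun n hn => ?_⟩
  have := hN (n - 1) (by omega)
  have e : n - 1 + 1 = n := by omega
  rw [e] at this
  omega

/-- The required primes at step `n + 2`. -/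
def Rq (a : ℕ → ℕ) (n : ℕ) : Finset ℕ := (a (n + 1)).primeFactors \ (a n).primeFactors

theorem mem_Rq (h : IsCoffee a) {n : ℕ} (hn : 1 ≤ n) (p : ℕ) :
    p ∈ Rq a n ↔ p.Prime ∧ p ∣ a (n + 1) ∧ ¬ p ∣ a n := by
  have h1 := pos h n hn
  have h2 := pos h (n + 1) (by omega)
  simp only [Rq, Finset.mem_sdiff, Nat.mem_primeFactors]
  constructor
  · rintro ⟨⟨hp, hd, -⟩, h'⟩
    exact ⟨hp, hd, fun h'' => h' ⟨hp, h'', by omega⟩⟩
  · rintro ⟨hp, hd, h'⟩
    exact ⟨⟨hp, hd, by omega⟩, fun h'' => h' h''.2.1⟩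

theorem step (h : IsCoffee a) {n : ℕ} (hn : 1 ≤ n) :
    IsLeast {m | 0 < m ∧ (∀ i, 1 ≤ i → i < n + 2 → a i ≠ m) ∧
      (∀ p, p.Prime → p ∣ a (n + 1) → ¬ p ∣ a n → p ∣ m) ∧
      (∀ p, p.Prime → p ∣ a (n + 1) → p ∣ a n → ¬ p ∣ m)} (a (n + 2)) :=
  h.2.2 (n + 2) (by omega)

theorem cand (h : IsCoffee a) {n m : ℕ} (hn : 1 ≤ n) (hm : 0 < m)
    (hu : ∀ i, 1 ≤ i → i < n + 2 → a i ≠ m)
    (hr : ∀ p, p.Prime → p ∣ a (n + 1) → ¬ p ∣ a n → p ∣ m)
    (hf : ∀ p, p.Prime → p ∣ a (n + 1) → p ∣ a n → ¬ p ∣ m) : a (n + 2) ≤ m :=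
  (step h hn).2 ⟨hm, hu, hr, hf⟩

theorem dvd_next (h : IsCoffee a) {n p : ℕ} (hn : 1 ≤ n) (hp : p.Prime)
    (h1 : p ∣ a (n + 1)) (h0 : ¬ p ∣ a n) : p ∣ a (n + 2) :=
  (step h hn).1.2.2.1 p hp h1 h0

theorem not_dvd_next (h : IsCoffee a) {n p : ℕ} (hn : 1 ≤ n) (hp : p.Prime)
    (h1 : p ∣ a (n + 1)) (h0 : p ∣ a n) : ¬ p ∣ a (n + 2) :=
  (step h hn).1.2.2.2 p hp h1 h0

/-- `r n`, the product of the required primes. -/
def r (a : ℕ → ℕ) (n : ℕ) : ℕ := ∏ p ∈ Rq a n, p

theorem r_pos (h : IsCoffee a) {n : ℕ} (hn : 1 ≤ n) : 0 < r a n :=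
  Finset.prod_pos fun p hp => ((mem_Rq h hn p).1 hp).1.pos

theorem prime_dvd_r (h : IsCoffee a) {n p : ℕ} (hn : 1 ≤ n) (hp : p.Prime) (hd : p ∣ r a n) :
    p ∈ Rq a n := by
  obtain ⟨q, hq, hpq⟩ := (Prime.dvd_finsetProd_iff hp.prime _).1 hd
  have hq' := ((mem_Rq h hn q).1 hq).1
  rw [(Nat.prime_dvd_prime_iff_eq hp hq').1 hpq]
  exact hq

theorem r_eq_one (h : IsCoffee a) {n : ℕ} (hn : 1 ≤ n) (hr : r a n = 1) : Rq a n = ∅ := by
  rw [Finset.eq_empty_iff_forall_notMem]
  intro p hp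
  have h1 : p ∣ r a n := Finset.dvd_prod_of_mem (fun p => p) hp
  rw [hr] at h1
  exact ((mem_Rq h hn p).1 hp).1.one_lt.ne' (Nat.dvd_one.1 h1)

/-- If `p` first divides a term at index `n + 2`, this term is `r * p`. -/
theorem first_eq (h : IsCoffee a) {n p : ℕ} (hn : 1 ≤ n) (hp : p.Prime) (hd : p ∣ a (n + 2))
    (hfirst : ∀ i, 1 ≤ i → i < n + 2 → ¬ p ∣ a i) : a (n + 2) = r a n * p := by
  apply le_antisymm
  · apply cand h hn (Nat.mul_pos (r_pos h hn) hp.pos)
    · intro i hi hi' he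
      exact hfirst i hi hi' (he ▸ Dvd.intro_left _ rfl)
    · intro q hq h1 h0
      exact Dvd.dvd.mul_right (Finset.dvd_prod_of_mem (fun p => p) ((mem_Rq h hn q).2 ⟨hq, h1, h0⟩)) _
    · intro q hq h1 h0 hd'
      rcases (Nat.Prime.dvd_mul hq).1 hd' with h' | h'
      · exact ((mem_Rq h hn q).1 (prime_dvd_r h hn hq h')).2.2 h0
      · rw [(Nat.prime_dvd_prime_iff_eq hq hp).1 h'] at h1
        exact hfirst (n + 1) (by omega) (by omega) h1
  · apply Nat.le_of_dvd (pos h _ (by omega))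
    have hrd : r a n ∣ a (n + 2) := by
      apply Finset.prod_primes_dvd
      · intro q hq
        exact ((mem_Rq h hn q).1 hq).1.prime
      · intro q hq
        obtain ⟨h1, h2, h3⟩ := (mem_Rq h hn q).1 hq
        exact dvd_next h hn h1 h2 h3
    refine Nat.Coprime.mul_dvd_of_dvd_of_dvd ?_ hrd hd
    rw [Nat.coprime_comm, Nat.Prime.coprime_iff_not_dvd hp]
    intro h'
    exact hfirst (n + 1) (by omega) (by omega) ((mem_Rq h hn p).1 (prime_dvd_r h hn hp h')).2.1

/-- Case A: there were required primes; then the next term is `p`. -/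
theorem caseA (h : IsCoffee a) {n p : ℕ} (hn : 1 ≤ n) (hp : p.Prime) (hd : p ∣ a (n + 2))
    (hfirst : ∀ i, 1 ≤ i → i < n + 2 → ¬ p ∣ a i) (hr : r a n ≠ 1) : a (n + 3) = p := by
  have he := first_eq h hn hp hd hfirst
  apply le_antisymm
  · apply cand h (n := n + 1) (by omega) hp.pos
    · intro i hi hi' hip
      rcases Nat.lt_or_ge i (n + 2) with h' | h'
      · exact hfirst i hi h' (by rw [hip])
      · have : i = n + 2 := by omega
        subst this
        rw [he] at hip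
        have := hp.pos
        exact hr (by nlinarith [Nat.eq_of_mul_eq_mul_right hp.pos (by rw [hip, one_mul] : r a n * p = 1 * p)])
    · intro q hq h1 h0
      have h1' : q ∣ r a n * p := by rw [← he]; exact h1
      rcases (Nat.Prime.dvd_mul hq).1 h1' with h' | h'
      · exact absurd ((mem_Rq h hn q).1 (prime_dvd_r h hn hq h')).2.1 h0
      · exact h'
    · intro q hq h1 h0 hd'
      rw [(Nat.prime_dvd_prime_iff_eq hq hp).1 hd'] at h0
      exact hfirst (n + 1) (by omega) (by omega) h0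
  · apply Nat.le_of_dvd (pos h _ (by omega))
    exact dvd_next h (n := n + 1) (by omega) hp hd (hfirst (n + 1) (by omega) (by omega))

/-- After Case A every unused integer prime to `p` is admissible. -/
theorem caseA_next (h : IsCoffee a) {n p k : ℕ} (hn : 1 ≤ n) (hp : p.Prime) (hd : p ∣ a (n + 2))
    (hfirst : ∀ i, 1 ≤ i → i < n + 2 → ¬ p ∣ a i) (hr : r a n ≠ 1)
    (hk : 0 < k) (hpk : ¬ p ∣ k) (hnot : ¬ Occurs a k) : a (n + 4) ≤ k := by
  have he := caseA h hn hp hd hfirst hr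
  apply cand h (n := n + 2) (by omega) hk
  · intro i hi _ hik
    exact hnot ⟨i, hi, hik⟩
  · intro q hq h1 h0
    have h1' : q ∣ p := by rw [← he]; exact h1
    rw [(Nat.prime_dvd_prime_iff_eq hq hp).1 h1'] at h0
    exact absurd hd h0
  · intro q hq h1 h0 hqk
    have h1' : q ∣ p := by rw [← he]; exact h1
    rw [(Nat.prime_dvd_prime_iff_eq hq hp).1 h1'] at hqk
    exact hpk hqk

/-- Case B: there was no required prime; then the term is `p`. -/
theorem caseB (h : IsCoffee a) {n p : ℕ} (hn : 1 ≤ n) (hp : p.Prime) (hd : p ∣ a (n + 2))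
    (hfirst : ∀ i, 1 ≤ i → i < n + 2 → ¬ p ∣ a i) (hr : r a n = 1) : a (n + 2) = p := by
  rw [first_eq h hn hp hd hfirst, hr, one_mul]

/-- In Case B the next term is `2 * p`. -/
theorem caseB_two (h : IsCoffee a) {n p : ℕ} (hn : 1 ≤ n) (hp : p.Prime) (hd : p ∣ a (n + 2))
    (hfirst : ∀ i, 1 ≤ i → i < n + 2 → ¬ p ∣ a i) (hr : r a n = 1) : a (n + 3) = 2 * p := by
  have he := caseB h hn hp hd hfirst hr
  have hle : a (n + 3) ≤ 2 * p := by
    apply cand h (n := n + 1) (by omega) (by have := hp.pos; omega)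
    · intro i hi hi' hip
      rcases Nat.lt_or_ge i (n + 2) with h' | h'
      · exact hfirst i hi h' (by rw [hip]; exact Dvd.intro_left _ rfl)
      · have : i = n + 2 := by omega
        subst this
        rw [he] at hip
        have := hp.pos
        omega
    · intro q hq h1 h0
      have h1' : q ∣ p := by rw [← he]; exact h1
      exact Dvd.dvd.mul_left h1' 2
    · intro q hq h1 h0 hd'
      have h1' : q ∣ p := by rw [← he]; exact h1
      rw [(Nat.prime_dvd_prime_iff_eq hq hp).1 h1'] at h0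
      exact hfirst (n + 1) (by omega) (by omega) h0
  have hdv : p ∣ a (n + 3) :=
    dvd_next h (n := n + 1) (by omega) hp hd (hfirst (n + 1) (by omega) (by omega))
  have hne : a (n + 2) ≠ a (n + 3) := ne_of_lt h (by omega) (by omega)
  have hpos := pos h (n + 3) (by omega)
  obtain ⟨c, hc⟩ := hdv
  rw [hc] at hle hne hpos ⊢
  rw [he] at hne
  have hpp := hp.pos
  have hc2 : c ≤ 2 := by
    by_contra hcon
    have : 3 ≤ c := by omega
    nlinarith
  interval_cases c
  · simp at hpos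
  · simp at hne
  · ring

/-- After Case B every unused even integer prime to `p` is admissible. -/
theorem caseB_next (h : IsCoffee a) {n p k : ℕ} (hn : 1 ≤ n) (hp : p.Prime) (hd : p ∣ a (n + 2))
    (hfirst : ∀ i, 1 ≤ i → i < n + 2 → ¬ p ∣ a i) (hr : r a n = 1)
    (hk : 0 < k) (hk2 : 2 ∣ k) (hpk : ¬ p ∣ k) (hnot : ¬ Occurs a k) : a (n + 4) ≤ k := by
  have he := caseB h hn hp hd hfirst hr
  have he2 := caseB_two h hn hp hd hfirst hr
  apply cand h (n := n + 2) (by omega) hk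
  · intro i hi _ hik
    exact hnot ⟨i, hi, hik⟩
  · intro q hq h1 h0
    have h1' : q ∣ 2 * p := by rw [← he2]; exact h1
    rw [he] at h0
    rcases (Nat.Prime.dvd_mul hq).1 h1' with h' | h'
    · exact h'.trans hk2
    · exact absurd h' h0
  · intro q hq h1 h0 hqk
    rw [he] at h0
    rw [(Nat.prime_dvd_prime_iff_eq hq hp).1 h0] at hqk
    exact hpk hqk

theorem exists_first (p N : ℕ) (hN : 1 ≤ N) (hp : p ∣ a N) :
    ∃ m, 1 ≤ m ∧ m ≤ N ∧ p ∣ a m ∧ ∀ i, 1 ≤ i → i < m → ¬ p ∣ a i := by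
  classical
  have hex : ∃ m, 1 ≤ m ∧ p ∣ a m := ⟨N, hN, hp⟩
  refine ⟨Nat.find hex, (Nat.find_spec hex).1, Nat.find_min' hex ⟨hN, hp⟩,
    (Nat.find_spec hex).2, fun i hi hi' hd => Nat.find_min hex hi' ⟨hi, hd⟩⟩

/-- There are infinitely many steps without a required prime. -/
theorem exists_empty (h : IsCoffee a) (N : ℕ) : ∃ n, N ≤ n ∧ 1 ≤ n ∧ r a n = 1 := by
  by_contra hcon
  push Not at hcon
  -- no prime first appears at an index `≥ N + 3`
  set B := ∑ i ∈ Finset.range (N + 3), a i with hB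
  have hall : ∀ m, 1 ≤ m → ∀ p, p.Prime → p ∣ a m → p ≤ B := by
    intro m hm p hp hd
    obtain ⟨m', h1, h2, h3, h4⟩ := exists_first p m hm hd
    have hm' : m' < N + 3 := by
      by_contra hc
      obtain ⟨n, rfl⟩ : ∃ n, m' = n + 2 := ⟨m' - 2, by omega⟩
      have hn : 1 ≤ n := by omega
      have hr := hcon n (by omega) hn
      have e3 := caseA h hn hp h3 h4 hr
      apply hcon (n + 2) (by omega) (by omega)
      have hemp : Rq a (n + 2) = ∅ := by
        rw [Finset.eq_empty_iff_forall_notMem]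
        intro q hq
        obtain ⟨hq1, hq2, hq3⟩ := (mem_Rq h (by omega) q).1 hq
        have h1' : q ∣ p := by rw [← e3]; exact hq2
        rw [(Nat.prime_dvd_prime_iff_eq hq1 hp).1 h1'] at hq3
        exact hq3 h3
      rw [r, hemp, Finset.prod_empty]
    have hle : a m' ≤ B := Finset.single_le_sum (f := a) (fun i _ => Nat.zero_le _)
      (Finset.mem_range.2 hm')
    exact (Nat.le_of_dvd (pos h m' h1) h3).trans hle
  obtain ⟨q, hq1, hq2⟩ := Nat.exists_infinite_primes (B + 1)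
  set C := (∏ p ∈ (Finset.range (B + 1)).filter Nat.Prime, p) * q with hC
  obtain ⟨M, hM1, hM⟩ := late h C
  have hn : 1 ≤ M := hM1
  have hrle : r a M ≤ ∏ p ∈ (Finset.range (B + 1)).filter Nat.Prime, p := by
    apply Nat.le_of_dvd
    · exact Finset.prod_pos fun p hp => (Finset.mem_filter.1 hp).2.pos
    · apply Finset.prod_dvd_prod_of_subset
      intro p hp
      obtain ⟨hp1, hp2, hp3⟩ := (mem_Rq h hn p).1 hp
      have := hall (M + 1) (by omega) p hp1 hp2
      simp only [Finset.mem_filter, Finset.mem_range]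
      exact ⟨by omega, hp1⟩
  have hcand : a (M + 2) ≤ r a M * q := by
    apply cand h hn (Nat.mul_pos (r_pos h hn) hq2.pos)
    · intro i hi _ he
      have := hall i hi q hq2 (he ▸ Dvd.intro_left _ rfl)
      omega
    · intro p hp h1 h0
      exact Dvd.dvd.mul_right (Finset.dvd_prod_of_mem (fun p => p) ((mem_Rq h hn p).2 ⟨hp, h1, h0⟩)) _
    · intro p hp h1 h0 hd
      rcases (Nat.Prime.dvd_mul hp).1 hd with h' | h'
      · exact ((mem_Rq h hn p).1 (prime_dvd_r h hn hp h')).2.2 h0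
      · rw [(Nat.prime_dvd_prime_iff_eq hp hq2).1 h'] at h1
        have := hall (M + 1) (by omega) q hq2 h1
        omega
  have h1 := hM (M + 2) (by omega)
  have h2 : r a M * q ≤ C := Nat.mul_le_mul_right q hrle
  omega

/-- Every prime divides a term. -/
theorem prime_dvd_term (h : IsCoffee a) (q : ℕ) (hq : q.Prime) : ∃ n, 1 ≤ n ∧ q ∣ a n := by
  by_contra hcon
  push Not at hcon
  obtain ⟨N, hN1, hN⟩ := late h q
  obtain ⟨n, hn1, hn2, hr⟩ := exists_empty h N
  have hle : a (n + 2) ≤ q := by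
    apply cand h hn2 hq.pos
    · intro i hi _ he
      exact hcon i hi (by rw [he])
    · intro p hp h1 h0
      have := (mem_Rq h hn2 p).2 ⟨hp, h1, h0⟩
      rw [r_eq_one h hn2 hr] at this
      simp at this
    · intro p hp h1 h0 hd
      rw [(Nat.prime_dvd_prime_iff_eq hp hq).1 hd] at h1
      exact hcon (n + 1) (by omega) h1
  have := hN (n + 2) (by omega)
  omega

theorem prime_occurs (h : IsCoffee a) (p : ℕ) (hp : p.Prime) : Occurs a p := by
  obtain ⟨N, hN1, hN⟩ := prime_dvd_term h p hp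
  obtain ⟨m, h1, -, h3, h4⟩ := exists_first p N hN1 hN
  rcases Nat.lt_or_ge m 3 with h' | h'
  · interval_cases m
    · rw [h.1] at h3
      exact absurd (Nat.dvd_one.1 h3) hp.one_lt.ne'
    · have h22 := h.2.1
      rw [h22] at h3
      have := (Nat.prime_dvd_prime_iff_eq hp Nat.prime_two).1 h3
      exact ⟨2, by norm_num, by rw [h22, this]⟩
  · obtain ⟨n, rfl⟩ : ∃ n, m = n + 2 := ⟨m - 2, by omega⟩
    have hn : 1 ≤ n := by omega
    by_cases hr : r a n = 1
    · exact ⟨n + 2, by omega, caseB h hn hp h3 h4 hr⟩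
    · exact ⟨n + 3, by omega, caseA h hn hp h3 h4 hr⟩

/-- For every `N` and `K`, all large primes first appear after index `N`. -/
theorem first_late (h : IsCoffee a) (N : ℕ) : ∃ B, ∀ p, p.Prime → B < p →
    ∃ n, N ≤ n ∧ 1 ≤ n ∧ p ∣ a (n + 2) ∧ ∀ i, 1 ≤ i → i < n + 2 → ¬ p ∣ a i := by
  refine ⟨∑ i ∈ Finset.range (N + 3), a i, fun p hp hB => ?_⟩
  obtain ⟨M, hM1, hM⟩ := prime_dvd_term h p hp
  obtain ⟨m, h1, -, h3, h4⟩ := exists_first p M hM1 hM
  have hm : N + 3 ≤ m := by
    by_contra hc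
    have hle : a m ≤ ∑ i ∈ Finset.range (N + 3), a i :=
      Finset.single_le_sum (f := a) (fun i _ => Nat.zero_le _) (Finset.mem_range.2 (by omega))
    have := Nat.le_of_dvd (pos h m h1) h3
    omega
  obtain ⟨n, rfl⟩ : ∃ n, m = n + 2 := ⟨m - 2, by omega⟩
  exact ⟨n, by omega, by omega, h3, h4⟩

theorem even_occurs (h : IsCoffee a) (k : ℕ) (hk : 0 < k) (hk2 : 2 ∣ k) : Occurs a k := by
  by_contra hnot
  obtain ⟨N, hN1, hN⟩ := late h k
  obtain ⟨B, hB⟩ := first_late h N
  obtain ⟨p, hp1, hp2⟩ := Nat.exists_infinite_primes (B + k + 1)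
  obtain ⟨n, hn1, hn2, hd, hf⟩ := hB p hp2 (by omega)
  have hpk : ¬ p ∣ k := fun h' => by have := Nat.le_of_dvd hk h'; omega
  have hle : a (n + 4) ≤ k := by
    by_cases hr : r a n = 1
    · exact caseB_next h hn2 hp2 hd hf hr hk hk2 hpk hnot
    · exact caseA_next h hn2 hp2 hd hf hr hk hpk hnot
  have := hN (n + 4) (by omega)
  omega

/-- If `k` is missing then all large primes enter through Case B. -/
theorem missing_caseB (h : IsCoffee a) (k : ℕ) (hk : 0 < k) (hnot : ¬ Occurs a k) :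
    ∃ B, ∀ p, p.Prime → B < p → ∃ n, 3 ≤ n ∧ a n = p ∧ a (n + 1) = 2 * p ∧
      ∀ i, 1 ≤ i → i < n → ¬ p ∣ a i := by
  obtain ⟨N, hN1, hN⟩ := late h k
  obtain ⟨B, hB⟩ := first_late h N
  refine ⟨B + k, fun p hp hBp => ?_⟩
  obtain ⟨n, hn1, hn2, hd, hf⟩ := hB p hp (by omega)
  have hpk : ¬ p ∣ k := fun h' => by have := Nat.le_of_dvd hk h'; omega
  have hr : r a n = 1 := by
    by_contra hr
    have h1 := caseA_next h hn2 hp hd hf hr hk hpk hnot
    have h2 := hN (n + 4) (by omega)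
    omega
  exact ⟨n + 2, by omega, caseB h hn2 hp hd hf hr, caseB_two h hn2 hp hd hf hr, hf⟩

/-- If `k` is missing then only finitely many integers with the same prime factors occur. -/
theorem missing_radical (h : IsCoffee a) (k : ℕ) (hk : 0 < k) (hnot : ¬ Occurs a k) :
    {j | Occurs a j ∧ j.primeFactors = k.primeFactors}.Finite := by
  obtain ⟨N, hN1, hN⟩ := late h k
  apply Set.Finite.subset (Finset.finite_toSet ((Finset.range (N + 3)).image a))
  rintro j ⟨⟨n, hn, rfl⟩, hj⟩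
  simp only [Finset.coe_image, Finset.coe_range, Set.mem_image, Set.mem_Iio]
  by_contra hcon
  push Not at hcon
  have hn3 : N + 3 ≤ n := by
    by_contra hc
    exact hcon n (by omega) rfl
  obtain ⟨m, rfl⟩ : ∃ m, n = m + 2 := ⟨n - 2, by omega⟩
  have hm : 1 ≤ m := by omega
  have hpos := pos h (m + 2) (by omega)
  have key : ∀ p, p.Prime → (p ∣ a (m + 2) ↔ p ∣ k) := by
    intro p hp
    have e1 : p ∈ (a (m + 2)).primeFactors ↔ p ∈ k.primeFactors := by rw [hj]
    simp only [Nat.mem_primeFactors] at e1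
    constructor
    · intro hd
      exact (e1.1 ⟨hp, hd, by omega⟩).2.1
    · intro hd
      exact (e1.2 ⟨hp, hd, by omega⟩).2.1
  have hle : a (m + 2) ≤ k := by
    apply cand h hm hk
    · intro i hi _ hik
      exact hnot ⟨i, hi, hik⟩
    · intro p hp h1 h0
      exact (key p hp).1 (dvd_next h hm hp h1 h0)
    · intro p hp h1 h0 hd
      exact not_dvd_next h hm hp h1 h0 ((key p hp).2 hd)
  have := hN (m + 2) (by omega)
  omega

end

/-! ### Existence and uniqueness of the sequence -/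

/-- The cup-of-coffee sequence, by recursion (`sInf` of a nonempty set of naturals is its least
element). -/
noncomputable def coffee : ℕ → ℕ
  | 0 => 0
  | 1 => 1
  | 2 => 2
  | (n + 3) => sInf {m | 0 < m ∧ (∀ i, 1 ≤ i → (_h : i < n + 3) → coffee i ≠ m) ∧
      (∀ p, p.Prime → p ∣ coffee (n + 2) → ¬ p ∣ coffee (n + 1) → p ∣ m) ∧
      (∀ p, p.Prime → p ∣ coffee (n + 2) → p ∣ coffee (n + 1) → ¬ p ∣ m)}
termination_by n => n

theorem exists_admissible (a : ℕ → ℕ) (n : ℕ) (hn : 3 ≤ n) (hpos : ∀ i, 1 ≤ i → i < n → 0 < a i) :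
    ∃ m, Admissible a n m := by
  obtain ⟨q, hq1, hq2⟩ := Nat.exists_infinite_primes ((∑ i ∈ Finset.range n, a i) + 1)
  have hle : ∀ i, i < n → a i < q := fun i hi => by
    have := Finset.single_le_sum (f := a) (s := Finset.range n) (fun i _ => Nat.zero_le _)
      (Finset.mem_range.2 hi)
    omega
  set R := (a (n - 1)).primeFactors \ (a (n - 2)).primeFactors with hR
  have h1 := hpos (n - 1) (by omega) (by omega)
  have h2 := hpos (n - 2) (by omega) (by omega)
  have hRpos : 0 < ∏ p ∈ R, p := Finset.prod_pos fun p hp =>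
    (Nat.prime_of_mem_primeFactors (Finset.mem_sdiff.1 hp).1).pos
  refine ⟨(∏ p ∈ R, p) * q, Nat.mul_pos hRpos hq2.pos, ?_, ?_, ?_⟩
  · intro i _ hi he
    have := hle i hi
    rw [he] at this
    nlinarith
  · intro p hp hd1 hd2
    refine Dvd.dvd.mul_right (Finset.dvd_prod_of_mem (fun p => p) ?_) _
    rw [hR, Finset.mem_sdiff, Nat.mem_primeFactors, Nat.mem_primeFactors]
    exact ⟨⟨hp, hd1, by omega⟩, fun h' => hd2 h'.2.1⟩
  · intro p hp hd1 hd2 hd
    rcases (Nat.Prime.dvd_mul hp).1 hd with h' | h'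
    · obtain ⟨q', hq', hpq⟩ := (Prime.dvd_finsetProd_iff hp.prime _).1 h'
      have hq'' := Finset.mem_sdiff.1 hq'
      rw [← (Nat.prime_dvd_prime_iff_eq hp (Nat.prime_of_mem_primeFactors hq''.1)).1 hpq] at hq''
      exact hq''.2 (Nat.mem_primeFactors.2 ⟨hp, hd2, by omega⟩)
    · rw [(Nat.prime_dvd_prime_iff_eq hp hq2).1 h'] at hd1
      have e1 := Nat.le_of_dvd h1 hd1
      have e2 := hle (n - 1) (by omega)
      omega

theorem coffee_spec (n : ℕ) (hpos : ∀ i, 1 ≤ i → i < n + 3 → 0 < coffee i) :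
    IsLeast {m | Admissible coffee (n + 3) m} (coffee (n + 3)) := by
  have hset : {m | Admissible coffee (n + 3) m} =
      {m | 0 < m ∧ (∀ i, 1 ≤ i → (_h : i < n + 3) → coffee i ≠ m) ∧
      (∀ p, p.Prime → p ∣ coffee (n + 2) → ¬ p ∣ coffee (n + 1) → p ∣ m) ∧
      (∀ p, p.Prime → p ∣ coffee (n + 2) → p ∣ coffee (n + 1) → ¬ p ∣ m)} := rfl
  obtain ⟨m, hm⟩ := exists_admissible coffee (n + 3) (by omega) hpos
  have hne : {m | Admissible coffee (n + 3) m}.Nonempty := ⟨m, hm⟩
  have he : coffee (n + 3) = sInf {m | Admissible coffee (n + 3) m} := by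
    rw [coffee, hset]
  rw [he]
  exact ⟨Nat.sInf_mem hne, fun x hx => Nat.sInf_le hx⟩

theorem coffee_pos : ∀ n, 1 ≤ n → 0 < coffee n := by
  intro n
  induction n using Nat.strong_induction_on with
  | _ n ih =>
    intro hn
    rcases Nat.lt_or_ge n 3 with h' | h'
    · interval_cases n
      · rw [coffee]; norm_num
      · rw [coffee]; norm_num
    · obtain ⟨m, rfl⟩ : ∃ m, n = m + 3 := ⟨n - 3, by omega⟩
      exact (coffee_spec m fun i hi hi' => ih i hi' hi).1.1

theorem coffee_isCoffee : IsCoffee coffee := by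
  refine ⟨by rw [coffee], by rw [coffee], fun n hn => ?_⟩
  obtain ⟨m, rfl⟩ : ∃ m, n = m + 3 := ⟨n - 3, by omega⟩
  exact coffee_spec m fun i hi _ => coffee_pos i hi

theorem unique {a b : ℕ → ℕ} (ha : IsCoffee a) (hb : IsCoffee b) :
    ∀ n, 1 ≤ n → a n = b n := by
  intro n
  induction n using Nat.strong_induction_on with
  | _ n ih =>
    intro hn
    rcases Nat.lt_or_ge n 3 with h' | h'
    · interval_cases n
      · rw [ha.1, hb.1]
      · rw [ha.2.1, hb.2.1]
    · have hset : {m | Admissible a n m} = {m | Admissible b n m} := by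
        ext m
        simp only [Set.mem_ofPred_eq, Admissible]
        rw [ih (n - 1) (by omega) (by omega), ih (n - 2) (by omega) (by omega)]
        constructor
        · rintro ⟨h1, h2, h3⟩
          exact ⟨h1, fun i hi hi' => by rw [← ih i hi' hi]; exact h2 i hi hi', h3⟩
        · rintro ⟨h1, h2, h3⟩
          exact ⟨h1, fun i hi hi' => by rw [ih i hi' hi]; exact h2 i hi hi', h3⟩
      have e1 := ha.2.2 n h'
      have e2 := hb.2.2 n h'
      rw [hset] at e1
      exact e1.unique e2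

/-- **Main result.** The cup-of-coffee sequence exists and is unique; every positive even integer
and every prime is a term of it.  Moreover, if some positive integer `k` is not a term, then only
finitely many integers with the same prime factors as `k` are terms, and every sufficiently large
prime `p` enters the sequence as the two consecutive terms `p, 2 * p` (no earlier term being
divisible by `p`). -/
theorem result :
    ∃ a : ℕ → ℕ, IsCoffee a ∧ (∀ b, IsCoffee b → ∀ n, 1 ≤ n → b n = a n) ∧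
      (∀ k, 0 < k → Even k → Occurs a k) ∧
      (∀ p, p.Prime → Occurs a p) ∧
      (∀ k, 0 < k → ¬ Occurs a k →
        {j | Occurs a j ∧ j.primeFactors = k.primeFactors}.Finite ∧
        ∃ B, ∀ p, p.Prime → B < p → ∃ n, 3 ≤ n ∧ a n = p ∧ a (n + 1) = 2 * p ∧
          ∀ i, 1 ≤ i → i < n → ¬ p ∣ a i) :=
  ⟨coffee, coffee_isCoffee, fun _ hb n hn => unique hb coffee_isCoffee n hn,
    fun k hk he => even_occurs coffee_isCoffee k hk he.two_dvd,
    fun p hp => prime_occurs coffee_isCoffee p hp,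
    fun k hk hnot => ⟨missing_radical coffee_isCoffee k hk hnot,
      missing_caseB coffee_isCoffee k hk hnot⟩⟩

end Pool.Agent.Results.MP_ab534e_nt.EvensAndPrimes
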